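import Pool.Agent.Helper38.ZS.Stmts

/-!
# Zonotope signing, module 1: level selection
-/

namespace Pool.Agent.Helper59.ZS

open Finset Pool.Agent.Helper38.ZS
open scoped Classical

noncomputable section

/-! ## a geometric kernel -/

theorem ker_low (q : ℝ) (hq0 : 0 < q) (hq1 : q < 1) (b : ℕ) :
    ∀ n : ℕ, n ≤ b → ∑ a ∈ Finset.range n, q ^ ((a : ℤ) - (b : ℤ)).natAbs
      ≤ q ^ (b - n + 1) / (1 - q) := by
  intro n
  induction n with
  | zero =>
    intro _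
    rw [Finset.range_zero, Finset.sum_empty]
    have : 0 < 1 - q := by linarith
    positivity
  | succ n ih =>
    intro hn
    have h1 := ih (by omega)
    rw [Finset.sum_range_succ]
    have h2 : ((n : ℤ) - (b : ℤ)).natAbs = b - n := by omega
    have h3 : b - (n + 1) + 1 = b - n := by omega
    rw [h2, h3]
    have hp : 0 < 1 - q := by linarith
    have h4 : q ^ (b - n + 1) / (1 - q) + q ^ (b - n) = q ^ (b - n) / (1 - q) := by
      rw [pow_succ]
      field_simp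
      ring
    linarith

theorem ker_high (q : ℝ) (hq0 : 0 < q) (hq1 : q < 1) (b : ℕ) (k : ℕ) :
    ∑ a ∈ Finset.range (b + k), q ^ ((a : ℤ) - (b : ℤ)).natAbs ≤ (2 - q ^ k) / (1 - q) := by
  have hp : 0 < 1 - q := by linarith
  induction k with
  | zero =>
    have h1 := ker_low q hq0 hq1 b b le_rfl
    rw [Nat.sub_self, zero_add, pow_one] at h1
    rw [Nat.add_zero, pow_zero]
    refine h1.trans ?_
    apply div_le_div_of_nonneg_right _ hp.le
    linarith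
  | succ k ih =>
    rw [← Nat.add_assoc, Finset.sum_range_succ]
    have h2 : (((b + k : ℕ) : ℤ) - (b : ℤ)).natAbs = k := by omega
    rw [h2]
    have h4 : (2 - q ^ k) / (1 - q) + q ^ k = (2 - q ^ (k + 1)) / (1 - q) := by
      rw [pow_succ]
      field_simp
      ring
    linarith

theorem ker (q : ℝ) (hq0 : 0 < q) (hq1 : q < 1) (b n : ℕ) :
    ∑ a ∈ Finset.range n, q ^ ((a : ℤ) - (b : ℤ)).natAbs ≤ 2 / (1 - q) := by
  have hp : 0 < 1 - q := by linarith
  have h1 : ∑ a ∈ Finset.range n, q ^ ((a : ℤ) - (b : ℤ)).natAbs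
      ≤ ∑ a ∈ Finset.range (b + n), q ^ ((a : ℤ) - (b : ℤ)).natAbs := by
    apply Finset.sum_le_sum_of_subset_of_nonneg
    · intro x hx
      rw [Finset.mem_range] at hx ⊢
      omega
    · intro i _ _
      positivity
  refine (h1.trans (ker_high q hq0 hq1 b n)).trans ?_
  apply div_le_div_of_nonneg_right _ hp.le
  have : 0 < q ^ n := by positivity
  linarith

theorem select (q : ℝ) (hq0 : 0 < q) (hq1 : q < 1) (N : ℕ) (A c : ℕ → ℝ)
    (hc : ∀ b ∈ Finset.range N, 0 ≤ c b)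
    (h : ∑ b ∈ Finset.range N, c b < ∑ a ∈ Finset.range N, A a) :
    ∃ l ∈ Finset.range N,
      ∑ b ∈ Finset.range N, c b * q ^ ((l : ℤ) - (b : ℤ)).natAbs < 2 / (1 - q) * A l := by
  by_contra hcon
  push Not at hcon
  have hp : 0 < 1 - q := by linarith
  have hW : 0 < 2 / (1 - q) := by positivity
  have h1 : 2 / (1 - q) * ∑ a ∈ Finset.range N, A a
      ≤ ∑ l ∈ Finset.range N, ∑ b ∈ Finset.range N, c b * q ^ ((l : ℤ) - (b : ℤ)).natAbs := by
    rw [Finset.mul_sum]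
    exact Finset.sum_le_sum hcon
  rw [Finset.sum_comm] at h1
  have h2 : ∑ b ∈ Finset.range N, ∑ l ∈ Finset.range N, c b * q ^ ((l : ℤ) - (b : ℤ)).natAbs
      ≤ ∑ b ∈ Finset.range N, c b * (2 / (1 - q)) := by
    apply Finset.sum_le_sum
    intro b hb
    rw [← Finset.mul_sum]
    exact mul_le_mul_of_nonneg_left (ker q hq0 hq1 b N) (hc b hb)
  rw [← Finset.sum_mul] at h2
  have h3 : 2 / (1 - q) * ∑ b ∈ Finset.range N, c b
      < 2 / (1 - q) * ∑ a ∈ Finset.range N, A a := mul_lt_mul_of_pos_left h hW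
  linarith

/-! ## truncations -/

theorem cl_scale (c a x : ℝ) (hc : 0 ≤ c) : cl (c * a) (c * x) = c * cl a x := by
  unfold cl
  rw [mul_max_of_nonneg _ _ hc, mul_min_of_nonneg _ _ hc]
  congr 1
  ring

theorem cl_neg (c x : ℝ) (hc : 0 ≤ c) : cl c (-x) = - cl c x := by
  unfold cl
  rcases le_total x (-c) with h | h
  · rw [min_eq_right (by linarith : c ≤ -x), max_eq_right (by linarith : -c ≤ c),
      min_eq_left (by linarith : x ≤ c), max_eq_left h]
    ring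
  · rcases le_total x c with h2 | h2
    · rw [min_eq_left (by linarith : -x ≤ c), max_eq_right (by linarith : -c ≤ -x),
        min_eq_left h2, max_eq_right h]
    · rw [min_eq_left (by linarith : -x ≤ c), max_eq_left (by linarith : -x ≤ -c),
        min_eq_right h2, max_eq_right (by linarith : -c ≤ c)]

theorem cl_of_abs_le (c x : ℝ) (h : |x| ≤ c) : cl c x = x := by
  unfold cl
  rw [abs_le] at h
  rw [min_eq_left h.2, max_eq_right h.1]

theorem cl_of_ge (c x : ℝ) (hc : 0 ≤ c) (h : c ≤ x) : cl c x = c := by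
  unfold cl
  rw [min_eq_right h, max_eq_right (by linarith)]

theorem cl_pos_eq (c x : ℝ) (hc : 0 ≤ c) (hx : 0 ≤ x) : cl c x = min x c := by
  unfold cl
  rw [max_eq_right]
  exact le_min (by linarith) (by linarith)

theorem TT_neg (x : ℝ) : TT (-x) = - TT x := by
  unfold TT
  rw [cl_neg 2 x (by norm_num), cl_neg 1 x (by norm_num)]
  ring

theorem TT_pos_nonneg (x : ℝ) (hx : 0 ≤ x) : 0 ≤ TT x := by
  unfold TT
  rw [cl_pos_eq 2 x (by norm_num) hx, cl_pos_eq 1 x (by norm_num) hx]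
  have : min x 1 ≤ min x 2 := min_le_min_left _ (by norm_num)
  linarith

theorem TT_abs (x : ℝ) : |TT x| = TT |x| := by
  rcases le_total 0 x with h | h
  · rw [abs_of_nonneg h, abs_of_nonneg (TT_pos_nonneg x h)]
  · have h1 := TT_pos_nonneg (-x) (by linarith)
    rw [TT_neg] at h1
    rw [abs_of_nonpos h, TT_neg, abs_of_nonpos (by linarith)]

theorem TT_of_ge (x : ℝ) (h : 2 ≤ |x|) : |TT x| = 1 := by
  rw [TT_abs]
  unfold TT
  rw [cl_of_ge 2 |x| (by norm_num) h, cl_of_ge 1 |x| (by norm_num) (by linarith)]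
  norm_num

/-- the part of size about `2 ^ j` -/
def Tj (j : ℤ) (x : ℝ) : ℝ := (2 : ℝ) ^ j * TT ((2 : ℝ) ^ (-j) * x)

theorem Tj_eq (j : ℤ) (x : ℝ) : Tj j x = cl ((2 : ℝ) ^ (j + 1)) x - cl ((2 : ℝ) ^ j) x := by
  unfold Tj TT
  have hp : (0 : ℝ) < (2 : ℝ) ^ j := by positivity
  have e : (2 : ℝ) ^ j * ((2 : ℝ) ^ (-j) * x) = x := by
    rw [← mul_assoc, ← zpow_add₀ (by norm_num : (2 : ℝ) ≠ 0)]
    simp
  rw [mul_sub, ← cl_scale _ 2 _ hp.le, ← cl_scale _ 1 _ hp.le, e, mul_one,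
    zpow_add_one₀ (by norm_num : (2 : ℝ) ≠ 0)]

theorem Tj_abs (j : ℤ) (x : ℝ) : |Tj j x| = Tj j |x| := by
  unfold Tj
  have hp : (0 : ℝ) < (2 : ℝ) ^ j := by positivity
  have hp' : (0 : ℝ) < (2 : ℝ) ^ (-j) := by positivity
  rw [abs_mul, abs_of_pos hp, TT_abs, abs_mul, abs_of_pos hp']

theorem Tj_sum (j0 : ℤ) (N : ℕ) (x : ℝ) :
    ∑ a ∈ Finset.range N, Tj (j0 + a) x = cl ((2 : ℝ) ^ (j0 + N)) x - cl ((2 : ℝ) ^ j0) x := by
  induction N with
  | zero => simp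
  | succ N ih =>
    rw [Finset.sum_range_succ, ih, Tj_eq]
    push_cast
    rw [← add_assoc]
    ring

theorem Tj_sum_abs (j0 : ℤ) (N : ℕ) (x : ℝ) :
    ∑ a ∈ Finset.range N, |Tj (j0 + a) x| ≤ |x| := by
  rw [Finset.sum_congr rfl (fun (a : ℕ) _ => Tj_abs (j0 + (a : ℤ)) x), Tj_sum]
  have hp : (0 : ℝ) < (2 : ℝ) ^ j0 := by positivity
  have hp' : (0 : ℝ) < (2 : ℝ) ^ (j0 + N) := by positivity
  rw [cl_pos_eq _ _ hp'.le (abs_nonneg x), cl_pos_eq _ _ hp.le (abs_nonneg x)]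
  have h1 : min |x| ((2 : ℝ) ^ (j0 + N)) ≤ |x| := min_le_left _ _
  have h2 : 0 ≤ min |x| ((2 : ℝ) ^ j0) := le_min (abs_nonneg x) hp.le
  linarith

theorem Tj_big (j : ℤ) (x : ℝ) (h : (2 : ℝ) ^ (j + 1) ≤ |x|) : |Tj j x| = (2 : ℝ) ^ j := by
  unfold Tj
  have hp : (0 : ℝ) < (2 : ℝ) ^ j := by positivity
  have hp' : (0 : ℝ) < (2 : ℝ) ^ (-j) := by positivity
  rw [abs_mul, abs_of_pos hp, TT_of_ge, mul_one]
  rw [abs_mul, abs_of_pos hp']
  have : (2 : ℝ) = (2 : ℝ) ^ (-j) * (2 : ℝ) ^ (j + 1) := by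
    rw [← zpow_add₀ (by norm_num : (2 : ℝ) ≠ 0)]
    norm_num
  calc (2 : ℝ) = (2 : ℝ) ^ (-j) * (2 : ℝ) ^ (j + 1) := this
    _ ≤ _ := mul_le_mul_of_nonneg_left h hp'.le

/-! ## the kernel `2 ^ (-|k| / 40)` -/

/-- the ratio -/
def qq : ℝ := (2 : ℝ) ^ (-(1 / 40) : ℝ)

theorem qq_pos : 0 < qq := Real.rpow_pos_of_pos (by norm_num) _

theorem qq_lt : qq < 1 := Real.rpow_lt_one_of_one_lt_of_neg (by norm_num) (by norm_num)

theorem qq_pow (h : ℤ) : qq ^ h.natAbs * (2 : ℝ) ^ (|(h : ℝ)| / 40) = 1 := by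
  have h1 : ((h.natAbs : ℕ) : ℝ) = |(h : ℝ)| := by
    rw [Nat.cast_natAbs, Int.cast_abs]
  unfold qq
  rw [← Real.rpow_natCast, ← Real.rpow_mul (by norm_num : (0 : ℝ) ≤ 2), h1,
    ← Real.rpow_add (by norm_num : (0 : ℝ) < 2)]
  have : -(1 / 40) * |(h : ℝ)| + |(h : ℝ)| / 40 = 0 := by ring
  rw [this, Real.rpow_zero]

theorem min_pos {ι : Type} [Fintype ι] (f : ι → ℝ) :
    ∃ δ : ℝ, 0 < δ ∧ ∀ i, f i ≠ 0 → δ ≤ |f i| := by
  by_cases h : (Finset.univ.filter (fun i => f i ≠ 0)).Nonempty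
  · obtain ⟨i, hi, hm⟩ := Finset.exists_min_image _ (fun i => |f i|) h
    refine ⟨|f i|, abs_pos.mpr (Finset.mem_filter.mp hi).2, fun j hj => ?_⟩
    exact hm j (Finset.mem_filter.mpr ⟨Finset.mem_univ j, hj⟩)
  · refine ⟨1, one_pos, fun j hj => ?_⟩
    exfalso
    exact h ⟨j, Finset.mem_filter.mpr ⟨Finset.mem_univ j, hj⟩⟩

theorem max_bd {ι : Type} [Fintype ι] (f : ι → ℝ) : ∃ M : ℝ, ∀ i, |f i| ≤ M := by
  refine ⟨∑ i, |f i|, fun i => ?_⟩
  exact Finset.single_le_sum (fun j _ => abs_nonneg (f j)) (Finset.mem_univ i)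

theorem st_level : ST_LEVEL := by
  have hp : 0 < 1 - qq := by linarith [qq_lt]
  have hW : 2 ≤ 2 / (1 - qq) := by
    rw [le_div_iff₀ hp]
    linarith [qq_pos]
  refine ⟨4 * (2 / (1 - qq)), by linarith, ?_⟩
  intro ι _ V f ξ β L hβ hβ1 hL hξ H
  have hlV : 0 < l1 f V := by
    by_contra hcon
    have h0 : 0 ≤ l1 f V := Finset.sum_nonneg (fun i _ => abs_nonneg (f i))
    have h1 : 0 ≤ l1 f Vᶜ := Finset.sum_nonneg (fun i _ => abs_nonneg (f i))
    have h2 : ∑ i ∈ V, ξ i * f i ≤ l1 f V := by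
      unfold l1
      apply Finset.sum_le_sum
      intro i hi
      have h3 : |ξ i * f i| ≤ 1 * |f i| := by
        rw [abs_mul]
        exact mul_le_mul_of_nonneg_right (hξ i hi) (abs_nonneg _)
      linarith [le_abs_self (ξ i * f i)]
    have h4 : l1 f V = 0 := by linarith [not_lt.mp hcon]
    have h5 : 0 ≤ L * l1 f Vᶜ := by positivity
    rw [h4] at H h2
    linarith
  obtain ⟨δ, hδ, hmin⟩ := min_pos f
  obtain ⟨M, hM⟩ := max_bd f
  -- the lowest level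
  obtain ⟨j0, hj1, hj2⟩ : ∃ j0 : ℤ, (2 : ℝ) ^ (j0 + 1) ≤ δ ∧
      (2 : ℝ) ^ j0 * (#V : ℝ) ≤ β / 4 * l1 f V := by
    obtain ⟨n, hn⟩ := exists_pow_lt_of_lt_one
      (lt_min (by positivity : 0 < δ / 2)
        (by positivity : 0 < β / 4 * l1 f V / ((#V : ℝ) + 1))) (by norm_num : (1 / 2 : ℝ) < 1)
    have e : (2 : ℝ) ^ (-(n : ℤ)) = (1 / 2 : ℝ) ^ n := by
      rw [zpow_neg, zpow_natCast, one_div, inv_pow]
    refine ⟨-(n : ℤ), ?_, ?_⟩
    · rw [zpow_add_one₀ (by norm_num : (2 : ℝ) ≠ 0), e]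
      have := hn.trans_le (min_le_left _ _)
      linarith
    · rw [e]
      have h1 := hn.trans_le (min_le_right _ _)
      have h2 : 0 ≤ (#V : ℝ) := by positivity
      rw [lt_div_iff₀ (by positivity)] at h1
      have h3 : 0 < (1 / 2 : ℝ) ^ n := by positivity
      nlinarith
  -- the number of levels
  obtain ⟨N, hN⟩ : ∃ N : ℕ, M < (2 : ℝ) ^ (j0 + N) := by
    have hz : (0 : ℝ) < (2 : ℝ) ^ j0 := by positivity
    obtain ⟨N, hN⟩ := pow_unbounded_of_one_lt (M / (2 : ℝ) ^ j0) (by norm_num : (1 : ℝ) < 2)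
    refine ⟨N, ?_⟩
    rw [div_lt_iff₀ hz] at hN
    rw [zpow_add₀ (by norm_num : (2 : ℝ) ≠ 0), zpow_natCast, mul_comm]
    exact hN
  have hMN : ∀ i, |f i| < (2 : ℝ) ^ (j0 + N) := fun i => (hM i).trans_lt hN
  obtain ⟨a, ha⟩ : ∃ a : ℕ → ℝ, a = fun (k : ℕ) => ∑ i ∈ V, |Tj (j0 + k) (f i)| := ⟨_, rfl⟩
  obtain ⟨b, hb⟩ : ∃ b : ℕ → ℝ, b = fun (k : ℕ) => ∑ i ∈ Vᶜ, |Tj (j0 + k) (f i)| := ⟨_, rfl⟩
  obtain ⟨x, hx⟩ : ∃ x : ℕ → ℝ, x = fun (k : ℕ) => ∑ i ∈ V, ξ i * Tj (j0 + k) (f i) := ⟨_, rfl⟩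
  have ha0 : ∀ k, 0 ≤ a k := by
    intro k
    rw [ha]
    exact Finset.sum_nonneg (fun i _ => abs_nonneg _)
  have hb0 : ∀ k, 0 ≤ b k := by
    intro k
    rw [hb]
    exact Finset.sum_nonneg (fun i _ => abs_nonneg _)
  have hxa : ∀ k, x k ≤ a k := by
    intro k
    rw [hx, ha]
    apply Finset.sum_le_sum
    intro i hi
    have h3 : |ξ i * Tj (j0 + k) (f i)| ≤ 1 * |Tj (j0 + k) (f i)| := by
      rw [abs_mul]
      exact mul_le_mul_of_nonneg_right (hξ i hi) (abs_nonneg _)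
    linarith [le_abs_self (ξ i * Tj (j0 + k) (f i))]
  have hsa : ∑ k ∈ Finset.range N, a k ≤ l1 f V := by
    rw [ha]
    rw [Finset.sum_comm]
    unfold l1
    apply Finset.sum_le_sum
    intro i _
    exact Tj_sum_abs j0 N (f i)
  have hsb : ∑ k ∈ Finset.range N, b k ≤ l1 f Vᶜ := by
    rw [hb]
    rw [Finset.sum_comm]
    unfold l1
    apply Finset.sum_le_sum
    intro i _
    exact Tj_sum_abs j0 N (f i)
  have hsx : ∑ i ∈ V, ξ i * f i ≤ β / 4 * l1 f V + ∑ k ∈ Finset.range N, x k := by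
    rw [hx]
    rw [Finset.sum_comm]
    have h1 : ∀ i ∈ V, ξ i * f i
        ≤ (2 : ℝ) ^ j0 + ∑ k ∈ Finset.range N, ξ i * Tj (j0 + k) (f i) := by
      intro i hi
      rw [← Finset.mul_sum, Tj_sum, cl_of_abs_le ((2 : ℝ) ^ (j0 + N)) (f i) (hMN i).le]
      have hpj : (0 : ℝ) < (2 : ℝ) ^ j0 := by positivity
      have h2 : |cl ((2 : ℝ) ^ j0) (f i)| ≤ (2 : ℝ) ^ j0 := by
        unfold cl
        rw [abs_le]
        exact ⟨le_max_left _ _, max_le (by linarith) (min_le_right _ _)⟩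
      have h3 : |ξ i * cl ((2 : ℝ) ^ j0) (f i)| ≤ 1 * (2 : ℝ) ^ j0 := by
        rw [abs_mul]
        exact mul_le_mul (hξ i hi) h2 (abs_nonneg _) (by norm_num)
      have h4 := le_abs_self (ξ i * cl ((2 : ℝ) ^ j0) (f i))
      have h5 : ξ i * (f i - cl ((2 : ℝ) ^ j0) (f i))
          = ξ i * f i - ξ i * cl ((2 : ℝ) ^ j0) (f i) := by ring
      rw [h5]
      linarith
    have h2 := Finset.sum_le_sum h1
    rw [Finset.sum_add_distrib, Finset.sum_const, nsmul_eq_mul] at h2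
    linarith [mul_comm (#V : ℝ) ((2 : ℝ) ^ j0)]
  -- selection
  obtain ⟨A, hA⟩ : ∃ A : ℕ → ℝ, A = fun (k : ℕ) => if β / 2 * a k < x k then a k else 0 := ⟨_, rfl⟩
  have hAx : ∀ k, x k ≤ A k + β / 2 * a k := by
    intro k
    rw [hA]
    by_cases h : β / 2 * a k < x k
    · simp only [h, if_true]
      have := ha0 k
      have := hxa k
      have : 0 ≤ β / 2 * a k := by positivity
      linarith
    · simp only [h, if_false]
      linarith [not_lt.mp h]
  obtain ⟨l, hl, hsel⟩ := select qq qq_pos qq_lt N A (fun k => β / 4 * a k + L * b k)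
    (fun k _ => by
      have := ha0 k
      have := hb0 k
      positivity)
    (by
      have h1 : ∑ k ∈ Finset.range N, x k
          ≤ ∑ k ∈ Finset.range N, A k + β / 2 * ∑ k ∈ Finset.range N, a k := by
        rw [Finset.mul_sum, ← Finset.sum_add_distrib]
        exact Finset.sum_le_sum (fun k _ => hAx k)
      rw [Finset.sum_add_distrib, ← Finset.mul_sum, ← Finset.mul_sum]
      have h2 : β * ∑ k ∈ Finset.range N, a k ≤ β * l1 f V :=
        mul_le_mul_of_nonneg_left hsa hβ.le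
      have h3 : L * ∑ k ∈ Finset.range N, b k ≤ L * l1 f Vᶜ :=
        mul_le_mul_of_nonneg_left hsb (by linarith)
      nlinarith)
  have hterm : ∀ k ∈ Finset.range N, 0 ≤ (β / 4 * a k + L * b k)
      * qq ^ ((l : ℤ) - (k : ℤ)).natAbs := by
    intro k _
    have := ha0 k
    have := hb0 k
    have := qq_pos
    positivity
  have hAl : 0 < A l := by
    have h1 : 0 ≤ ∑ k ∈ Finset.range N, (β / 4 * a k + L * b k)
      * qq ^ ((l : ℤ) - (k : ℤ)).natAbs := Finset.sum_nonneg hterm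
    have h2 : 0 < 2 / (1 - qq) * A l := lt_of_le_of_lt h1 hsel
    by_contra hcon
    have : 2 / (1 - qq) * A l ≤ 0 :=
      mul_nonpos_of_nonneg_of_nonpos (by linarith) (not_lt.mp hcon)
    linarith
  have hAal : A l = a l ∧ β / 2 * a l < x l := by
    have h0 : A l = if β / 2 * a l < x l then a l else 0 := by rw [hA]
    by_cases h : β / 2 * a l < x l
    · rw [if_pos h] at h0
      exact ⟨h0, h⟩
    · rw [if_neg h] at h0
      linarith
  obtain ⟨hA1, hA2⟩ := hAal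
  rw [hA1] at hAl hsel
  -- rescaling
  obtain ⟨u, hu⟩ : ∃ u : ℤ, u = j0 + l := ⟨_, rfl⟩
  obtain ⟨s, hs⟩ : ∃ s : ℝ, s = (2 : ℝ) ^ (-u) := ⟨_, rfl⟩
  have hs0 : 0 < s := by
    rw [hs]
    positivity
  have hsT : ∀ i, TT (s * f i) = s * Tj u (f i) := by
    intro i
    unfold Tj
    rw [hs, ← mul_assoc, ← zpow_add₀ (by norm_num : (2 : ℝ) ≠ 0)]
    simp
  have hm : ∑ i ∈ V, |TT (s * f i)| = s * a l := by
    rw [ha]
    simp only
    rw [Finset.mul_sum]
    apply Finset.sum_congr rfl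
    intro i _
    rw [hsT, abs_mul, abs_of_pos hs0, hu]
  have hmx : ∑ i ∈ V, ξ i * TT (s * f i) = s * x l := by
    rw [hx]
    simp only
    rw [Finset.mul_sum]
    apply Finset.sum_congr rfl
    intro i _
    rw [hsT, hu]
    ring
  refine ⟨s, hs0, ?_, ?_, ?_⟩
  · rw [hm]
    positivity
  · rw [hm, hmx]
    have := mul_lt_mul_of_pos_left hA2 hs0
    linarith
  -- the key estimate at the levels `j0 + k`, `k < N`
  have key : ∀ k ∈ Finset.range N, ∀ h : ℤ, j0 + k = u + h →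
      (2 : ℝ) ^ h * (β * (#(V.filter (fun i => (2 : ℝ) ^ (h + 1) ≤ |s * f i|)) : ℝ)
          + L * (#(Vᶜ.filter (fun i => (2 : ℝ) ^ (h + 1) ≤ |s * f i|)) : ℝ))
        ≤ 4 * (2 / (1 - qq)) * (2 : ℝ) ^ (|(h : ℝ)| / 40) * (s * a l) := by
    intro k hk h hkh
    have hset : ∀ i, (2 : ℝ) ^ (h + 1) ≤ |s * f i| → (2 : ℝ) ^ (j0 + k + 1) ≤ |f i| := by
      intro i hi
      rw [abs_mul, abs_of_pos hs0] at hi
      have e1 : (2 : ℝ) ^ (h + 1) = s * (2 : ℝ) ^ (j0 + k + 1) := by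
        rw [hs, ← zpow_add₀ (by norm_num : (2 : ℝ) ≠ 0)]
        congr 1
        omega
      rw [e1] at hi
      exact le_of_mul_le_mul_left hi hs0
    have hcnt : ∀ X : Finset ι, (2 : ℝ) ^ (j0 + k)
        * (#(X.filter (fun i => (2 : ℝ) ^ (h + 1) ≤ |s * f i|)) : ℝ)
        ≤ ∑ i ∈ X, |Tj (j0 + k) (f i)| := by
      intro X
      have h1 : ∑ i ∈ X.filter (fun i => (2 : ℝ) ^ (h + 1) ≤ |s * f i|), (2 : ℝ) ^ (j0 + k)
          ≤ ∑ i ∈ X.filter (fun i => (2 : ℝ) ^ (h + 1) ≤ |s * f i|), |Tj (j0 + k) (f i)| := by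
        apply Finset.sum_le_sum
        intro i hi
        rw [Tj_big _ _ (hset i (Finset.mem_filter.mp hi).2)]
      rw [Finset.sum_const, nsmul_eq_mul] at h1
      have h2 : ∑ i ∈ X.filter (fun i => (2 : ℝ) ^ (h + 1) ≤ |s * f i|), |Tj (j0 + k) (f i)|
          ≤ ∑ i ∈ X, |Tj (j0 + k) (f i)| := by
        apply Finset.sum_le_sum_of_subset_of_nonneg (Finset.filter_subset _ _)
        intro i _ _
        exact abs_nonneg _
      linarith [mul_comm ((2 : ℝ) ^ (j0 + k))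
        (#(X.filter (fun i => (2 : ℝ) ^ (h + 1) ≤ |s * f i|)) : ℝ)]
    have c1 := hcnt V
    have c2 := hcnt Vᶜ
    have ea : ∑ i ∈ V, |Tj (j0 + k) (f i)| = a k := by rw [ha]
    have eb : ∑ i ∈ Vᶜ, |Tj (j0 + k) (f i)| = b k := by rw [hb]
    rw [ea] at c1
    rw [eb] at c2
    have h3 := Finset.single_le_sum hterm hk
    have h4 : (β / 4 * a k + L * b k) * qq ^ ((l : ℤ) - (k : ℤ)).natAbs < 2 / (1 - qq) * a l :=
      lt_of_le_of_lt h3 hsel
    have e2 : ((l : ℤ) - (k : ℤ)).natAbs = h.natAbs := by omega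
    rw [e2] at h4
    have h5 : 0 < (2 : ℝ) ^ (|(h : ℝ)| / 40) := Real.rpow_pos_of_pos (by norm_num) _
    have h6 : β / 4 * a k + L * b k ≤ 2 / (1 - qq) * a l * (2 : ℝ) ^ (|(h : ℝ)| / 40) := by
      have e3 : β / 4 * a k + L * b k
          = (β / 4 * a k + L * b k) * qq ^ h.natAbs * (2 : ℝ) ^ (|(h : ℝ)| / 40) := by
        rw [mul_assoc, qq_pow, mul_one]
      rw [e3]
      exact mul_le_mul_of_nonneg_right h4.le h5.le
    have e4 : (2 : ℝ) ^ h = s * (2 : ℝ) ^ (j0 + k) := by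
      rw [hs, ← zpow_add₀ (by norm_num : (2 : ℝ) ≠ 0)]
      congr 1
      omega
    rw [e4]
    have h7 : β * ((2 : ℝ) ^ (j0 + k)
          * (#(V.filter (fun i => (2 : ℝ) ^ (h + 1) ≤ |s * f i|)) : ℝ)) ≤ β * a k :=
      mul_le_mul_of_nonneg_left c1 hβ.le
    have h8 : L * ((2 : ℝ) ^ (j0 + k)
          * (#(Vᶜ.filter (fun i => (2 : ℝ) ^ (h + 1) ≤ |s * f i|)) : ℝ)) ≤ L * b k :=
      mul_le_mul_of_nonneg_left c2 (by linarith)
    have h9 : 0 ≤ L * b k := by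
      have := hb0 k
      positivity
    calc s * (2 : ℝ) ^ (j0 + k) * (β * (#(V.filter (fun i => (2 : ℝ) ^ (h + 1) ≤ |s * f i|)) : ℝ)
          + L * (#(Vᶜ.filter (fun i => (2 : ℝ) ^ (h + 1) ≤ |s * f i|)) : ℝ))
        = s * (β * ((2 : ℝ) ^ (j0 + k)
          * (#(V.filter (fun i => (2 : ℝ) ^ (h + 1) ≤ |s * f i|)) : ℝ))
          + L * ((2 : ℝ) ^ (j0 + k)
          * (#(Vᶜ.filter (fun i => (2 : ℝ) ^ (h + 1) ≤ |s * f i|)) : ℝ))) := by ring
      _ ≤ s * (4 * (β / 4 * a k + L * b k)) := by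
        apply mul_le_mul_of_nonneg_left _ hs0.le
        linarith
      _ ≤ s * (4 * (2 / (1 - qq) * a l * (2 : ℝ) ^ (|(h : ℝ)| / 40))) := by
        apply mul_le_mul_of_nonneg_left _ hs0.le
        linarith
      _ = _ := by ring
  intro h
  rw [hm]
  have hal0 : 0 ≤ s * a l := by positivity
  rcases lt_trichotomy (u + h) j0 with hc | hc | hc
  · -- below the lowest level
    have hu0 : j0 ≤ u := by
      rw [hu]
      have : (0 : ℤ) ≤ (l : ℤ) := Int.natCast_nonneg l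
      omega
    have hN0 : 0 < N := by
      have := Finset.mem_range.mp hl
      omega
    have h1 := key 0 (Finset.mem_range.mpr hN0) (j0 - u) (by push_cast; ring)
    have hcard : ∀ X : Finset ι, (#(X.filter (fun i => (2 : ℝ) ^ (h + 1) ≤ |s * f i|)) : ℝ)
        ≤ (#(X.filter (fun i => (2 : ℝ) ^ (j0 - u + 1) ≤ |s * f i|)) : ℝ) := by
      intro X
      norm_cast
      apply Finset.card_le_card
      intro i hi
      rw [Finset.mem_filter] at hi ⊢
      refine ⟨hi.1, ?_⟩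
      have hp2 : (0 : ℝ) < (2 : ℝ) ^ (h + 1) := by positivity
      have hf0 : f i ≠ 0 := by
        intro h0
        have := hi.2
        rw [h0, mul_zero, abs_zero] at this
        linarith
      have h2 := hj1.trans (hmin i hf0)
      rw [abs_mul, abs_of_pos hs0]
      have e1 : (2 : ℝ) ^ (j0 - u + 1) = s * (2 : ℝ) ^ (j0 + 1) := by
        rw [hs, ← zpow_add₀ (by norm_num : (2 : ℝ) ≠ 0)]
        congr 1
        ring
      rw [e1]
      exact mul_le_mul_of_nonneg_left h2 hs0.le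
    have h2 : (2 : ℝ) ^ h ≤ (2 : ℝ) ^ (j0 - u) := by
      apply zpow_le_zpow_right₀ (by norm_num)
      omega
    have h3 : (2 : ℝ) ^ (|((j0 - u : ℤ) : ℝ)| / 40) ≤ (2 : ℝ) ^ (|(h : ℝ)| / 40) := by
      apply Real.rpow_le_rpow_of_exponent_le (by norm_num)
      have h4 : |((j0 - u : ℤ) : ℝ)| ≤ |(h : ℝ)| := by
        rw [← Int.cast_abs, ← Int.cast_abs]
        norm_cast
        rw [abs_of_nonpos (by omega), abs_of_nonpos (by omega)]
        omega
      linarith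
    have hp3 : (0 : ℝ) < (2 : ℝ) ^ h := by positivity
    have hp4 : (0 : ℝ) < (2 : ℝ) ^ (j0 - u) := by positivity
    have h5 : β * (#(V.filter (fun i => (2 : ℝ) ^ (h + 1) ≤ |s * f i|)) : ℝ)
          + L * (#(Vᶜ.filter (fun i => (2 : ℝ) ^ (h + 1) ≤ |s * f i|)) : ℝ)
        ≤ β * (#(V.filter (fun i => (2 : ℝ) ^ (j0 - u + 1) ≤ |s * f i|)) : ℝ)
          + L * (#(Vᶜ.filter (fun i => (2 : ℝ) ^ (j0 - u + 1) ≤ |s * f i|)) : ℝ) := by
      have c1 := mul_le_mul_of_nonneg_left (hcard V) hβ.le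
      have c2 := mul_le_mul_of_nonneg_left (hcard Vᶜ) (by linarith : 0 ≤ L)
      linarith
    have h6 : 0 ≤ β * (#(V.filter (fun i => (2 : ℝ) ^ (h + 1) ≤ |s * f i|)) : ℝ)
          + L * (#(Vᶜ.filter (fun i => (2 : ℝ) ^ (h + 1) ≤ |s * f i|)) : ℝ) := by positivity
    refine (mul_le_mul h2 h5 h6 hp4.le).trans (h1.trans ?_)
    have h7 : 0 ≤ 4 * (2 / (1 - qq)) := by linarith
    exact mul_le_mul_of_nonneg_right (mul_le_mul_of_nonneg_left h3 h7) hal0
  · -- the lowest level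
    have hN0 : 0 < N := by
      have := Finset.mem_range.mp hl
      omega
    exact key 0 (Finset.mem_range.mpr hN0) h (by push_cast; omega)
  · by_cases hc2 : u + h < j0 + N
    · obtain ⟨k, hk⟩ := Int.eq_ofNat_of_zero_le (by omega : 0 ≤ u + h - j0)
      exact key k (Finset.mem_range.mpr (by omega)) h (by omega)
    · -- above the highest level
      have hemp : ∀ X : Finset ι, (#(X.filter (fun i => (2 : ℝ) ^ (h + 1) ≤ |s * f i|)) : ℝ) = 0 := by
        intro X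
        rw [Finset.filter_false_of_mem]
        · simp
        · intro i _
          rw [not_le, abs_mul, abs_of_pos hs0]
          have e1 : (2 : ℝ) ^ (h + 1) = s * (2 : ℝ) ^ (u + h + 1) := by
            rw [hs, ← zpow_add₀ (by norm_num : (2 : ℝ) ≠ 0)]
            congr 1
            ring
          rw [e1]
          apply mul_lt_mul_of_pos_left _ hs0
          refine (hMN i).trans_le ?_
          apply zpow_le_zpow_right₀ (by norm_num)
          omega
      rw [hemp, hemp]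
      have h7 : 0 ≤ 4 * (2 / (1 - qq)) := by linarith
      have h5 : 0 < (2 : ℝ) ^ (|(h : ℝ)| / 40) := Real.rpow_pos_of_pos (by norm_num) _
      have : 0 ≤ 4 * (2 / (1 - qq)) * (2 : ℝ) ^ (|(h : ℝ)| / 40) * (s * a l) := by positivity
      simpa using this

end

end Pool.Agent.Helper59.ZS
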