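import Pool.Agent.Helper38.ZS.Stmts

/-!
# Zonotope signing, module 19: almost signs in the Komlos problem
-/

namespace Pool.Agent.Helper59.ZS

open Finset Pool.Agent.Helper38.ZS
open scoped Classical

noncomputable section

/-- the rows of the matrix `(A^T ; lam)` -/
def bb {n m : ℕ} (A : Fin m → Fin n → ℝ) (lam : ℝ) : Fin n ⊕ Fin m → Fin m → ℝ
  | Sum.inl v => fun j => A j v
  | Sum.inr k => fun j => if k = j then lam else 0

/-- Gram matrix -/
def GG {n m : ℕ} (A : Fin m → Fin n → ℝ) (lam : ℝ) : Matrix (Fin m) (Fin m) ℝ :=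
  fun j k => ∑ i, bb A lam i j * bb A lam i k

theorem GG_quad {n m : ℕ} (A : Fin m → Fin n → ℝ) (lam : ℝ) (w : Fin m → ℝ) :
    ∑ j, w j * ∑ k, GG A lam j k * w k = ∑ i, (∑ j, bb A lam i j * w j) ^ 2 := by
  have h1 : ∀ i, (∑ j, bb A lam i j * w j) ^ 2
      = ∑ j, ∑ k, w j * (bb A lam i j * bb A lam i k * w k) := by
    intro i
    rw [sq, Finset.sum_mul]
    apply Finset.sum_congr rfl
    intro j _
    rw [Finset.mul_sum]
    apply Finset.sum_congr rfl
    intro k _
    ring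
  rw [Finset.sum_congr rfl (fun i _ => h1 i), Finset.sum_comm]
  apply Finset.sum_congr rfl
  intro j _
  rw [Finset.sum_comm, Finset.mul_sum]
  apply Finset.sum_congr rfl
  intro k _
  unfold GG
  rw [Finset.sum_mul, Finset.mul_sum]

theorem GG_lower {n m : ℕ} (A : Fin m → Fin n → ℝ) (lam : ℝ) (w : Fin m → ℝ) :
    lam ^ 2 * ∑ j, w j ^ 2 ≤ ∑ j, w j * ∑ k, GG A lam j k * w k := by
  rw [GG_quad, Fintype.sum_sum_type]
  have h1 : ∀ k : Fin m, (∑ j, bb A lam (Sum.inr k) j * w j) ^ 2 = lam ^ 2 * w k ^ 2 := by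
    intro k
    have : ∑ j, bb A lam (Sum.inr k) j * w j = lam * w k := by
      rw [Finset.sum_eq_single k]
      · simp [bb]
      · intro j _ hj
        simp [bb, Ne.symm hj]
      · intro h
        exact absurd (Finset.mem_univ k) h
    rw [this]
    ring
  rw [Finset.sum_congr rfl (fun k _ => h1 k), ← Finset.mul_sum]
  have h2 : 0 ≤ ∑ v : Fin n, (∑ j, bb A lam (Sum.inl v) j * w j) ^ 2 :=
    Finset.sum_nonneg (fun v _ => sq_nonneg _)
  linarith

theorem GG_inj {n m : ℕ} (A : Fin m → Fin n → ℝ) (lam : ℝ) (hl : 0 < lam) :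
    IsUnit (GG A lam).det := by
  rw [isUnit_iff_ne_zero]
  intro h0
  obtain ⟨w, hw, hz⟩ := Matrix.exists_mulVec_eq_zero_iff.mpr h0
  have h1 := GG_lower A lam w
  have h2 : ∑ j, w j * ∑ k, GG A lam j k * w k = 0 := by
    apply Finset.sum_eq_zero
    intro j _
    have := congrFun hz j
    rw [Matrix.mulVec, dotProduct] at this
    rw [this]
    simp
  rw [h2] at h1
  have h3 : 0 ≤ ∑ j, w j ^ 2 := Finset.sum_nonneg (fun j _ => sq_nonneg _)
  have h4 : ∑ j, w j ^ 2 = 0 := by
    have : 0 < lam ^ 2 := by positivity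
    nlinarith
  apply hw
  funext j
  have := (Finset.sum_eq_zero_iff_of_nonneg (fun j _ => sq_nonneg (w j))).mp h4 j (Finset.mem_univ j)
  simpa using this

/-- the inverse -/
def MM {n m : ℕ} (A : Fin m → Fin n → ℝ) (lam : ℝ) : Matrix (Fin m) (Fin m) ℝ := (GG A lam)⁻¹

theorem GG_symm {n m : ℕ} (A : Fin m → Fin n → ℝ) (lam : ℝ) (j k : Fin m) :
    GG A lam j k = GG A lam k j := by
  unfold GG
  apply Finset.sum_congr rfl
  intro i _
  ring

theorem MM_symm {n m : ℕ} (A : Fin m → Fin n → ℝ) (lam : ℝ) (j k : Fin m) :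
    MM A lam j k = MM A lam k j := by
  have h : (GG A lam).transpose = GG A lam := by
    funext j k
    exact GG_symm A lam k j
  have h2 : (MM A lam).transpose = MM A lam := by
    unfold MM
    rw [Matrix.transpose_nonsing_inv, h]
  exact (congrFun (congrFun h2 k) j).symm ▸ rfl

/-- `M` applied to a vector -/
def mv {m : ℕ} (M : Matrix (Fin m) (Fin m) ℝ) (y : Fin m → ℝ) (j : Fin m) : ℝ := ∑ k, M j k * y k

theorem mv_eq {m : ℕ} (M : Matrix (Fin m) (Fin m) ℝ) (y : Fin m → ℝ) :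
    mv M y = M.mulVec y := by
  funext j
  rfl

theorem MM_GG {n m : ℕ} (A : Fin m → Fin n → ℝ) (lam : ℝ) (hl : 0 < lam) (y : Fin m → ℝ) :
    mv (MM A lam) (mv (GG A lam) y) = y := by
  rw [mv_eq, mv_eq, Matrix.mulVec_mulVec]
  unfold MM
  rw [Matrix.nonsing_inv_mul _ (GG_inj A lam hl), Matrix.one_mulVec]

theorem GG_MM {n m : ℕ} (A : Fin m → Fin n → ℝ) (lam : ℝ) (hl : 0 < lam) (y : Fin m → ℝ) :
    mv (GG A lam) (mv (MM A lam) y) = y := by
  rw [mv_eq, mv_eq, Matrix.mulVec_mulVec]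
  unfold MM
  rw [Matrix.mul_nonsing_inv _ (GG_inj A lam hl), Matrix.one_mulVec]

/-- the projection -/
def PP {n m : ℕ} (A : Fin m → Fin n → ℝ) (lam : ℝ) (i k : Fin n ⊕ Fin m) : ℝ :=
  ∑ j, bb A lam i j * mv (MM A lam) (bb A lam k) j

theorem mv_pair {m : ℕ} (M : Matrix (Fin m) (Fin m) ℝ) (hM : ∀ j k, M j k = M k j)
    (x y : Fin m → ℝ) : ∑ j, x j * mv M y j = ∑ j, y j * mv M x j := by
  unfold mv
  have h1 : ∀ x y : Fin m → ℝ, ∑ j, x j * ∑ k, M j k * y k = ∑ j, ∑ k, x j * M j k * y k := by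
    intro x y
    apply Finset.sum_congr rfl
    intro j _
    rw [Finset.mul_sum]
    apply Finset.sum_congr rfl
    intro k _
    ring
  rw [h1, h1, Finset.sum_comm]
  apply Finset.sum_congr rfl
  intro j _
  apply Finset.sum_congr rfl
  intro k _
  rw [hM k j]
  ring

theorem GG_mv {n m : ℕ} (A : Fin m → Fin n → ℝ) (lam : ℝ) (x : Fin m → ℝ) (j : Fin m) :
    mv (GG A lam) x j = ∑ i, bb A lam i j * ∑ k, bb A lam i k * x k := by
  unfold mv GG
  have h1 : ∀ k : Fin m, (∑ i, bb A lam i j * bb A lam i k) * x k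
      = ∑ i, bb A lam i j * (bb A lam i k * x k) := by
    intro k
    rw [Finset.sum_mul]
    apply Finset.sum_congr rfl
    intro i _
    ring
  rw [Finset.sum_congr rfl (fun k _ => h1 k), Finset.sum_comm]
  apply Finset.sum_congr rfl
  intro i _
  rw [Finset.mul_sum]

/-- the projection applied to a vector -/
theorem PP_ap {n m : ℕ} (A : Fin m → Fin n → ℝ) (lam : ℝ) (x : Fin n ⊕ Fin m → ℝ)
    (i : Fin n ⊕ Fin m) :
    ap (PP A lam) x i = ∑ j, bb A lam i j * mv (MM A lam) (fun l => ∑ k, bb A lam k l * x k) j := by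
  unfold ap PP
  have h1 : ∀ k, (∑ j, bb A lam i j * mv (MM A lam) (bb A lam k) j) * x k
      = ∑ j, bb A lam i j * (mv (MM A lam) (bb A lam k) j * x k) := by
    intro k
    rw [Finset.sum_mul]
    apply Finset.sum_congr rfl
    intro j _
    ring
  rw [Finset.sum_congr rfl (fun k _ => h1 k), Finset.sum_comm]
  apply Finset.sum_congr rfl
  intro j _
  rw [← Finset.mul_sum]
  congr 1
  unfold mv
  have h2 : ∀ k, (∑ l, MM A lam j l * bb A lam k l) * x k
      = ∑ l, MM A lam j l * (bb A lam k l * x k) := by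
    intro k
    rw [Finset.sum_mul]
    apply Finset.sum_congr rfl
    intro l _
    ring
  rw [Finset.sum_congr rfl (fun k _ => h2 k), Finset.sum_comm]
  apply Finset.sum_congr rfl
  intro l _
  rw [Finset.mul_sum]

/-- vectors of the range are fixed -/
theorem PP_fix {n m : ℕ} (A : Fin m → Fin n → ℝ) (lam : ℝ) (hl : 0 < lam) (y : Fin m → ℝ) :
    ap (PP A lam) (fun i => ∑ j, bb A lam i j * y j) = fun i => ∑ j, bb A lam i j * y j := by
  funext i
  rw [PP_ap]
  have h : (fun l => ∑ k, bb A lam k l * ∑ j, bb A lam k j * y j) = mv (GG A lam) y := by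
    funext l
    rw [GG_mv]
  rw [h, MM_GG A lam hl y]

theorem PP_pr {n m : ℕ} (A : Fin m → Fin n → ℝ) (lam : ℝ) (hl : 0 < lam) : IsPr (PP A lam) := by
  have hs : ∀ i j, PP A lam i j = PP A lam j i := by
    intro i j
    unfold PP
    exact mv_pair _ (MM_symm A lam) _ _
  constructor
  · exact hs
  · intro i j
    have h1 : ∑ k, PP A lam i k * PP A lam k j = ap (PP A lam) (fun k => PP A lam k j) i := rfl
    rw [h1]
    have h2 : (fun k => PP A lam k j)
        = fun k => ∑ l, bb A lam k l * mv (MM A lam) (bb A lam j) l := rfl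
    rw [h2, PP_fix A lam hl]
    rfl

theorem PP_diag {n m : ℕ} (A : Fin m → Fin n → ℝ) (lam : ℝ) (hl : 0 < lam) (v : Fin n)
    (hv : ∑ j, A j v ^ 2 ≤ 1) : PP A lam (Sum.inl v) (Sum.inl v) ≤ 1 / lam ^ 2 := by
  have hl2 : 0 < lam ^ 2 := by positivity
  obtain ⟨w, hw⟩ : ∃ w, w = mv (MM A lam) (bb A lam (Sum.inl v)) := ⟨_, rfl⟩
  have h1 : mv (GG A lam) w = bb A lam (Sum.inl v) := by
    rw [hw]
    exact GG_MM A lam hl _
  have h2 : PP A lam (Sum.inl v) (Sum.inl v) = ∑ j, A j v * w j := by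
    unfold PP
    rw [← hw]
    rfl
  have h3 : ∑ j, w j * ∑ k, GG A lam j k * w k = ∑ j, A j v * w j := by
    apply Finset.sum_congr rfl
    intro j _
    have := congrFun h1 j
    unfold mv at this
    rw [this]
    show w j * A j v = A j v * w j
    ring
  have h4 := GG_lower A lam w
  rw [h3] at h4
  have h5 : 2 * ∑ j, A j v * w j ≤ lam ^ 2 * ∑ j, w j ^ 2 + 1 / lam ^ 2 * ∑ j, A j v ^ 2 := by
    rw [Finset.mul_sum, Finset.mul_sum, Finset.mul_sum, ← Finset.sum_add_distrib]
    apply Finset.sum_le_sum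
    intro j _
    have : 0 ≤ (lam * w j - 1 / lam * A j v) ^ 2 := sq_nonneg _
    have e : (lam * w j - 1 / lam * A j v) ^ 2
        = lam ^ 2 * w j ^ 2 + 1 / lam ^ 2 * A j v ^ 2 - 2 * (A j v * w j) := by
      field_simp
      ring
    linarith
  have h6 : 1 / lam ^ 2 * ∑ j, A j v ^ 2 ≤ 1 / lam ^ 2 := by
    have : 0 ≤ 1 / lam ^ 2 := by positivity
    nlinarith
  rw [h2]
  linarith

/-- the linear map of the duality -/
def Phi {n m : ℕ} (A : Fin m → Fin n → ℝ) :
    ((Fin n → ℝ) × (Fin m → ℝ)) →ₗ[ℝ] (Fin m → ℝ) where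
  toFun p := fun j => ∑ v, A j v * p.1 v + p.2 j
  map_add' p q := by
    funext j
    simp only [Prod.fst_add, Prod.snd_add, Pi.add_apply]
    rw [Finset.sum_congr rfl (fun v _ => mul_add (A j v) (p.1 v) (q.1 v)),
      Finset.sum_add_distrib]
    ring
  map_smul' c p := by
    funext j
    simp only [Prod.smul_fst, Prod.smul_snd, Pi.smul_apply, smul_eq_mul, RingHom.id_apply]
    rw [mul_add, Finset.mul_sum]
    congr 1
    apply Finset.sum_congr rfl
    intro v _
    ring

theorem Phi_apply {n m : ℕ} (A : Fin m → Fin n → ℝ) (p : (Fin n → ℝ) × (Fin m → ℝ)) (j : Fin m) :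
    Phi A p j = ∑ v, A j v * p.1 v + p.2 j := rfl

theorem dual {n m : ℕ} (A : Fin m → Fin n → ℝ) (b T : ℝ) (hb : 0 ≤ b) (hT : 0 ≤ T)
    (ξ : Fin n → ℝ)
    (H : ∀ y : Fin m → ℝ, ∑ v, ξ v * ∑ j, A j v * y j
      ≤ b * ∑ v, |∑ j, A j v * y j| + T * ∑ j, |y j|) :
    ∃ h : Fin n → ℝ, (∀ v, |h v| ≤ b) ∧ ∀ j, |∑ v, A j v * (ξ v - h v)| ≤ T := by
  obtain ⟨S, hS⟩ : ∃ S : Set ((Fin n → ℝ) × (Fin m → ℝ)),
      S = (Set.Icc (fun _ => -b) (fun _ => b)) ×ˢ (Set.Icc (fun _ => -T) (fun _ => T)) := ⟨_, rfl⟩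
  have hc : IsCompact S := by
    rw [hS]
    exact isCompact_Icc.prod isCompact_Icc
  have hv : Convex ℝ S := by
    rw [hS]
    exact (convex_Icc _ _).prod (convex_Icc _ _)
  have hcont : Continuous (Phi A) := LinearMap.continuous_of_finiteDimensional (Phi A)
  have hK : IsCompact (Phi A '' S) := hc.image hcont
  have hKv : Convex ℝ (Phi A '' S) := hv.linear_image (Phi A)
  by_cases hx : (fun j => ∑ v, A j v * ξ v) ∈ Phi A '' S
  · obtain ⟨p, hp, he⟩ := hx
    rw [hS] at hp
    obtain ⟨hp1, hp2⟩ := hp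
    refine ⟨p.1, fun v => ?_, fun j => ?_⟩
    · rw [abs_le]
      exact ⟨hp1.1 v, hp1.2 v⟩
    · have h1 := congrFun he j
      rw [Phi_apply] at h1
      have h2 : ∑ v, A j v * (ξ v - p.1 v) = p.2 j := by
        rw [Finset.sum_congr rfl (fun v _ => mul_sub (A j v) (ξ v) (p.1 v)),
          Finset.sum_sub_distrib]
        linarith
      rw [h2, abs_le]
      exact ⟨hp2.1 j, hp2.2 j⟩
  · exfalso
    obtain ⟨f, u, hu1, hu2⟩ := geometric_hahn_banach_closed_point hKv hK.isClosed hx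
    obtain ⟨y, hy⟩ : ∃ y : Fin m → ℝ, y = fun j => f (fun i => if j = i then 1 else 0) := ⟨_, rfl⟩
    have hf : ∀ c : Fin m → ℝ, f c = ∑ j, c j * y j := by
      intro c
      have := LinearMap.pi_apply_eq_sum_univ (f : (Fin m → ℝ) →ₗ[ℝ] ℝ) c
      rw [hy]
      simpa using this
    have hswap : ∀ h : Fin n → ℝ, ∑ j, (∑ v, A j v * h v) * y j = ∑ v, h v * ∑ j, A j v * y j := by
      intro h
      have e1 : ∀ j, (∑ v, A j v * h v) * y j = ∑ v, h v * (A j v * y j) := by
        intro j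
        rw [Finset.sum_mul]
        apply Finset.sum_congr rfl
        intro v _
        ring
      rw [Finset.sum_congr rfl (fun j _ => e1 j), Finset.sum_comm]
      apply Finset.sum_congr rfl
      intro v _
      rw [Finset.mul_sum]
    rw [hf, hswap] at hu2
    have h3 := hu1 (Phi A (fun v => b * SignType.sign (∑ j, A j v * y j),
      fun j => T * SignType.sign (y j))) ?_
    · rw [hf] at h3
      have e2 : ∀ j, Phi A (fun v => b * SignType.sign (∑ j, A j v * y j),
          fun j => T * SignType.sign (y j)) j * y j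
          = (∑ v, A j v * (b * SignType.sign (∑ j, A j v * y j))) * y j
            + T * |y j| := by
        intro j
        rw [Phi_apply]
        have : (SignType.sign (y j) : ℝ) * y j = |y j| := sign_mul_self _
        rw [add_mul, mul_assoc T, this]
      rw [Finset.sum_congr rfl (fun j _ => e2 j), Finset.sum_add_distrib, hswap,
        ← Finset.mul_sum] at h3
      have e3 : ∀ v, b * (SignType.sign (∑ j, A j v * y j) : ℝ) * ∑ j, A j v * y j
          = b * |∑ j, A j v * y j| := by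
        intro v
        rw [mul_assoc, sign_mul_self]
      rw [Finset.sum_congr rfl (fun v _ => e3 v), ← Finset.mul_sum] at h3
      have := H y
      linarith
    · apply Set.mem_image_of_mem
      rw [hS]
      have hsg : ∀ (c x : ℝ), 0 ≤ c → -c ≤ c * SignType.sign x ∧ c * SignType.sign x ≤ c := by
        intro c x hc
        rcases lt_trichotomy x 0 with h | h | h
        · rw [sign_neg h]
          simp [hc]
        · rw [h]
          simp [hc]
        · rw [sign_pos h]
          simp [hc]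
      refine ⟨⟨fun v => (hsg b _ hb).1, fun v => (hsg b _ hb).2⟩,
        ⟨fun j => (hsg T _ hT).1, fun j => (hsg T _ hT).2⟩⟩

theorem l1_compl {ι : Type} [Fintype ι] (V : Finset ι) (f : ι → ℝ) :
    l1 f Vᶜ = ∑ i, |f i| - ∑ i ∈ V, |f i| := by
  have h1 := Finset.sum_add_sum_compl V (fun i => |f i|)
  unfold l1
  linarith

theorem st_main (hs : ST_SIGN) : ST_MAIN := by
  intro β hβ
  obtain ⟨η, L, hη, hL, H⟩ := hs (min β 1) (lt_min hβ one_pos) (min_le_right _ _)
  obtain ⟨b, hb⟩ : ∃ b, b = min β 1 := ⟨_, rfl⟩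
  rw [← hb] at H
  have hb0 : 0 < b := by
    rw [hb]
    exact lt_min hβ one_pos
  have hsq : 0 < Real.sqrt η := Real.sqrt_pos.mpr hη
  obtain ⟨lam, hlam⟩ : ∃ lam, lam = 1 / Real.sqrt η := ⟨_, rfl⟩
  have hl : 0 < lam := by
    rw [hlam]
    positivity
  have hle : 1 / lam ^ 2 = η := by
    rw [hlam]
    rw [div_pow, one_pow, Real.sq_sqrt hη.le]
    simp
  refine ⟨L * lam, fun n m A hA => ?_⟩
  obtain ⟨ξ, hξ, hf⟩ := H (Fin n ⊕ Fin m) (PP A lam)
    (Finset.univ.filter (fun i => ∃ v, i = Sum.inl v)) (PP_pr A lam hl) (by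
      intro i hi
      obtain ⟨v, rfl⟩ := (Finset.mem_filter.mp hi).2
      rw [← hle]
      exact PP_diag A lam hl v (hA v))
  have hsum : ∀ F : Fin n ⊕ Fin m → ℝ,
      ∑ i ∈ Finset.univ.filter (fun i : Fin n ⊕ Fin m => ∃ v, i = Sum.inl v), F i
        = ∑ v, F (Sum.inl v) := by
    intro F
    rw [Finset.sum_filter, Fintype.sum_sum_type]
    simp
  obtain ⟨h, hh, hT⟩ := dual A b (L * lam) hb0.le (by positivity) (fun v => ξ (Sum.inl v)) (by
    intro y
    have h1 := hf (fun i => ∑ j, bb A lam i j * y j) (PP_fix A lam hl y)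
    rw [l1_compl] at h1
    unfold l1 at h1
    rw [hsum, hsum, Fintype.sum_sum_type, add_sub_cancel_left] at h1
    have e1 : ∀ k, |∑ j, bb A lam (Sum.inr k) j * y j| = lam * |y k| := by
      intro k
      have : ∑ j, bb A lam (Sum.inr k) j * y j = lam * y k := by
        rw [Finset.sum_eq_single k]
        · simp [bb]
        · intro j _ hj
          simp [bb, Ne.symm hj]
        · intro h
          exact absurd (Finset.mem_univ k) h
      rw [this, abs_mul, abs_of_pos hl]
    rw [Finset.sum_congr rfl (fun k _ => e1 k), ← Finset.mul_sum, ← mul_assoc] at h1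
    exact h1)
  refine ⟨fun v => ξ (Sum.inl v) - h v, fun v => ?_, fun j => ?_⟩
  · have h1 : |ξ (Sum.inl v)| = 1 := by
      rcases hξ (Sum.inl v) with e | e
      · rw [e]
        simp
      · rw [e]
        simp
    have h2 := abs_abs_sub_abs_le (ξ (Sum.inl v) - h v) (ξ (Sum.inl v))
    rw [h1] at h2
    have h3 : ξ (Sum.inl v) - h v - ξ (Sum.inl v) = - h v := by ring
    rw [h3, abs_neg] at h2
    have h4 : b ≤ β := by
      rw [hb]
      exact min_le_left _ _
    linarith [hh v]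
  · exact hT j

end

end Pool.Agent.Helper59.ZS
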